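import Pool.Agent.H39.TO.Targets

/-!
MP_397744_co: module DIF (board toh_modules).
-/

namespace Pool.Agent.H67.TOH

open Pool.Agent.H57.CP Pool.Agent.H39.TO

theorem closure_sub {G : Type} [Group G] (s t : G) (hs : s * s = 1) (ht : t * t = 1) :
    (Subgroup.closure {s, t} : Set G) ⊆
      (Subgroup.zpowers (s * t) : Set G) ∪ (fun x => x * s) '' (Subgroup.zpowers (s * t) : Set G) := by
  have hsi : s⁻¹ = s := inv_eq_of_mul_eq_one_left hs
  have hti : t⁻¹ = t := inv_eq_of_mul_eq_one_left ht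
  have hp : s * (s * t) = t := by rw [← mul_assoc, hs, one_mul]
  have hq : t = (s * t)⁻¹ * s := by rw [mul_inv_rev, hsi, hti, mul_assoc, hs, mul_one]
  have key1 : ∀ w, w ∈ (Subgroup.zpowers (s * t) : Set G) ∪
      (fun x => x * s) '' (Subgroup.zpowers (s * t) : Set G) →
      w * s ∈ (Subgroup.zpowers (s * t) : Set G) ∪
      (fun x => x * s) '' (Subgroup.zpowers (s * t) : Set G) := by
    rintro w (h | ⟨x, hx, rfl⟩)
    · exact Or.inr ⟨w, h, rfl⟩
    · left
      show x * s * s ∈ _
      rw [mul_assoc, hs, mul_one]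
      exact hx
  have key2 : ∀ w, w ∈ (Subgroup.zpowers (s * t) : Set G) ∪
      (fun x => x * s) '' (Subgroup.zpowers (s * t) : Set G) →
      w * t ∈ (Subgroup.zpowers (s * t) : Set G) ∪
      (fun x => x * s) '' (Subgroup.zpowers (s * t) : Set G) := by
    rintro w (h | ⟨x, hx, rfl⟩)
    · right
      refine ⟨w * (s * t)⁻¹, ?_, ?_⟩
      · exact Subgroup.mul_mem _ h (Subgroup.inv_mem _ (Subgroup.mem_zpowers _))
      · show w * (s * t)⁻¹ * s = w * t
        rw [mul_assoc, ← hq]
    · left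
      show x * s * t ∈ _
      rw [mul_assoc]
      exact Subgroup.mul_mem _ hx (Subgroup.mem_zpowers _)
  intro w hw
  refine Subgroup.closure_induction_right (p := fun w _ => w ∈ (Subgroup.zpowers (s * t) : Set G) ∪
      (fun x => x * s) '' (Subgroup.zpowers (s * t) : Set G)) ?_ ?_ ?_ hw
  · exact Or.inl (Subgroup.one_mem _)
  · rintro x _ y hy h
    rcases hy with rfl | hy
    · exact key1 _ h
    · rw [Set.mem_singleton_iff] at hy
      rw [hy]; exact key2 _ h
  · rintro x _ y hy h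
    rcases hy with rfl | hy
    · rw [hsi]; exact key1 _ h
    · rw [Set.mem_singleton_iff] at hy
      rw [hy, hti]; exact key2 _ h

theorem pf_DIF (hSGE : T_SGE) (hORR : T_ORR) : T_DIF := by
  intro M al σ hN hS i j hij hM
  obtain ⟨_, hf, _⟩ := hSGE M al σ hN hS
  have hM1 : M i j ≠ 1 := M.off_diagonal i j hij
  have h2 : 2 ≤ M i j := by omega
  have hord : ∀ m : ℕ, (ss M i * ss M j) ^ m = 1 ↔ M i j ∣ m := by
    intro m
    rw [← hORR (al i) (al j) 1 (M i j) (hN.unit i) (hN.unit j) h2 (Nat.coprime_one_left _)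
      (by rw [hN.fin i j hij hM]; simp) m]
    rw [← hS i, ← hS j, ← map_mul, ← map_pow]
    exact ⟨fun h => by rw [h, map_one], fun h => hf _ h⟩
  refine ⟨?_, hord⟩
  have hs : ∀ l : Fin 3, ss M l * ss M l = 1 := fun l => M.toCoxeterSystem.simple_mul_simple_self l
  refine Set.Finite.subset ?_ (closure_sub _ _ (hs i) (hs j))
  have hfin : IsOfFinOrder (ss M i * ss M j) := by
    rw [isOfFinOrder_iff_pow_eq_one]
    exact ⟨M i j, by omega, (hord _).2 dvd_rfl⟩
  have h3 : (Subgroup.zpowers (ss M i * ss M j) : Set M.Group).Finite := finite_zpowers.2 hfin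
  exact h3.union (h3.image _)

end Pool.Agent.H67.TOH
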