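import Pool.Agent.H39.TO.Targets

/-!
MP_397744_co: module EUC (board toh_modules): the two centres are not in a common horosphere.
-/

namespace Pool.Agent.H67.TOH

open Pool.Agent.H57.CP Pool.Agent.H39.TO

namespace EU

theorem mkc (x y : V4) : mk x y = mk y x := by unfold mk; ring
theorem mkal (x y z : V4) : mk (x + y) z = mk x z + mk y z := by simp [mk]; ring
theorem mkar (x y z : V4) : mk x (y + z) = mk x y + mk x z := by simp [mk]; ring
theorem mksl (c : ℝ) (x y : V4) : mk (c • x) y = c * mk x y := by simp [mk]; ring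
theorem mksr (c : ℝ) (x y : V4) : mk x (c • y) = c * mk x y := by simp [mk]; ring

theorem refl_ap (a x : V4) : refl a x = x + (2 * mk a x) • a := by
  ext i; simp [Pool.Agent.H57.CP.refl]

/-- the parabolic isometry -/
noncomputable def E (ν w : V4) : V4 →ₗ[ℝ] V4 where
  toFun x := fun i => x i + mk ν x * w i - (mk w x + mk w w * mk ν x / 2) * ν i
  map_add' x y := by ext i; simp [mk]; ring
  map_smul' c x := by ext i; simp [mk]; ring

theorem E_ap (ν w x : V4) :
    E ν w x = x + (mk ν x) • w + (-(mk w x + mk w w * mk ν x / 2)) • ν := by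
  ext i
  simp [E]
  ring

theorem E_mul (ν w w2 : V4) (h : mk ν ν = 0) (h1 : mk ν w = 0) (h2 : mk ν w2 = 0) :
    E ν w * E ν w2 = E ν (w + w2) := by
  apply LinearMap.ext
  intro x
  rw [Module.End.mul_apply, E_ap ν w, E_ap ν w2, E_ap ν (w + w2)]
  have h1' : mk w ν = 0 := by rw [mkc]; exact h1
  have h2' : mk w2 ν = 0 := by rw [mkc]; exact h2
  simp only [mkal, mkar, mksl, mksr, h, h1, h2, h1', h2', mkc w2 w]
  ext i
  simp only [Pi.add_apply, Pi.smul_apply, smul_eq_mul]
  ring

theorem E_conj (g g' : Module.End ℝ V4) (hg : ∀ x y, mk (g x) (g y) = mk x y) (hgg : g * g' = 1)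
    (ν w : V4) (hν : g ν = ν) : g * E ν w * g' = E ν (g w) := by
  apply LinearMap.ext
  intro x
  have h1 : g (g' x) = x := by
    rw [← Module.End.mul_apply, hgg]; rfl
  rw [Module.End.mul_apply, Module.End.mul_apply, E_ap, E_ap, map_add, map_add, map_smul, map_smul,
    hν, h1, hg]
  have h2 : mk ν (g' x) = mk ν x := by rw [← hg, hν, h1]
  have h3 : mk w (g' x) = mk (g w) x := by rw [← hg, h1]
  rw [h2, h3]

theorem E_self (ν w x : V4) (hx : mk x x = 1) :
    mk x (E ν w x) = 1 - mk w w * (mk ν x) ^ 2 / 2 := by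
  rw [E_ap]
  simp only [mkar, mksr, hx, mkc x w, mkc x ν]
  ring

theorem null_zero (x : V4) (h : mk x x = 0) (h3 : x 3 = 0) : x = 0 := by
  have h4 : x 0 ^ 2 + x 1 ^ 2 + x 2 ^ 2 = 0 := by
    unfold mk at h
    rw [h3] at h
    linarith
  have h5 : x 0 = 0 := by nlinarith [sq_nonneg (x 0), sq_nonneg (x 1), sq_nonneg (x 2)]
  have h6 : x 1 = 0 := by nlinarith [sq_nonneg (x 0), sq_nonneg (x 1), sq_nonneg (x 2)]
  have h7 : x 2 = 0 := by nlinarith [sq_nonneg (x 0), sq_nonneg (x 1), sq_nonneg (x 2)]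
  ext i
  fin_cases i <;> simp [h3, h5, h6, h7]

end EU

open EU

theorem pf_EUC (hLOR : Pool.Agent.H57.CP.T_LOR) : T_EUC := by
  intro p n0 t t' hodd hp hT hC
  have hL := hLOR.2.2
  set c : ℝ := Real.cos (Real.pi / p) with hc
  set s : ℝ := Real.sin (Real.pi / p) with hs
  have hp5 : (5 : ℝ) ≤ p := by exact_mod_cast hp
  have hpi := Real.pi_pos
  have hang : 0 < Real.pi / p := by positivity
  have hang5 : Real.pi / p ≤ Real.pi / 5 := div_le_div_of_nonneg_left hpi.le (by norm_num) hp5
  have hs0 : 0 < s := Real.sin_pos_of_pos_of_lt_pi hang (by linarith)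
  have hcs : s ^ 2 + c ^ 2 = 1 := Real.sin_sq_add_cos_sq _
  have hc12 : 1 / 2 < c := by
    rw [← Real.cos_pi_div_three]
    exact Real.cos_lt_cos_of_nonneg_of_le_pi hang.le (by linarith) (by linarith)
  have hc1 : c < 1 := by
    by_contra h
    push Not at h
    have h2 : 1 ≤ c ^ 2 := one_le_pow₀ h
    linarith [pow_pos hs0 2]
  have hi1 : (1 / s) * s = 1 := by field_simp
  have hcd : c / s = c * (1 / s) := by ring
  have hu0 := hT.u0
  have hut := hT.ut
  have hut' := hT.ut'
  have ha : mk n0 t = c := hT.a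
  have ha' : mk n0 t' = c := hT.a'
  have ha2 : mk t n0 = c := by rw [mkc]; exact ha
  have ha2' : mk t' n0 = c := by rw [mkc]; exact ha'
  have htt : mk t t' = 1 - 2 * c ^ 2 := by
    unfold CC at hC
    rw [div_eq_one_iff_eq (by positivity)] at hC
    change mk t t' + c ^ 2 = s ^ 2 at hC
    linarith
  have htt' : mk t' t = 1 - 2 * c ^ 2 := by rw [mkc]; exact htt
  -- the null vector
  set ts : V4 := (-1 : ℝ) • t + (-(2 * c)) • n0 with hts
  have hss : mk ts ts = -1 := by
    rw [hts]; simp only [mkal, mkar, mksl, mksr, hu0, hut, ha, ha2]; ring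
  have hn0s : mk n0 ts = c := by
    rw [hts]; simp only [mkar, mksr, hu0, ha]; ring
  have hts' : mk t' ts = -1 := by
    rw [hts]; simp only [mkar, mksr, ha2', htt']; ring
  have hts'2 : mk ts t' = -1 := by rw [mkc]; exact hts'
  have hn0s2 : mk ts n0 = c := by rw [mkc]; exact hn0s
  set ν : V4 := t' + (-1 : ℝ) • ts with hν
  have hνν : mk ν ν = 0 := by
    rw [hν]; simp only [mkal, mkar, mksl, mksr, hut', hss, hts', hts'2]; ring
  have hνn : mk ν n0 = 0 := by
    rw [hν]; simp only [mkal, mksl, ha2', hn0s2]; ring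
  have hνt : mk ν t = 0 := by
    have h1 : mk ts t = 1 - 2 * c ^ 2 := by
      rw [hts]; simp only [mkal, mksl, hut, ha]; ring
    rw [hν]; simp only [mkal, mksl, htt', h1]; ring
  have hn0ν : mk n0 ν = 0 := by rw [mkc]; exact hνn
  have htν : mk t ν = 0 := by rw [mkc]; exact hνt
  have hνne : ν ≠ 0 := by
    intro h0
    have hli := hT.li
    rw [Fintype.linearIndependent_iff] at hli
    have := hli ![2 * c, 1, 1] (by
      simp only [Fin.sum_univ_three, Matrix.cons_val]
      rw [← h0, hν, hts]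
      ext i
      simp only [Pi.add_apply, Pi.smul_apply, smul_eq_mul]
      ring) 1
    simp at this
  set b : ℝ := mk ν o.1 with hb
  have hb0 : b ≠ 0 := by
    intro h0
    have h3 : ν 3 = 0 := by
      rw [← h0, hb]; simp [mk, o]
    exact hνne (null_zero ν hνν h3)
  -- the group
  set G := Gam n0 t t' with hG
  have g0 : refl n0 ∈ G := Submonoid.subset_closure (by simp)
  have g1 : refl t ∈ G := Submonoid.subset_closure (by simp)
  have g2 : refl t' ∈ G := Submonoid.subset_closure (by simp)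
  have gs : refl ts = refl n0 * refl t * refl n0 := by
    apply LinearMap.ext
    intro x
    rw [Module.End.mul_apply, Module.End.mul_apply, refl_ap, refl_ap n0, refl_ap t, refl_ap n0 x]
    simp only [mkal, mkar, mksl, mksr, hu0, hut, ha, ha2, hts]
    ext i
    simp only [Pi.add_apply, Pi.smul_apply, smul_eq_mul]
    ring
  have gsG : refl ts ∈ G := by
    rw [gs]; exact G.mul_mem (G.mul_mem g0 g1) g0
  have gE : refl t' * refl ts = E ν ((2 : ℝ) • ts) := by
    apply LinearMap.ext
    intro x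
    rw [Module.End.mul_apply, refl_ap t', refl_ap ts, E_ap]
    have e1 : mk ν x = mk t' x - mk ts x := by
      rw [hν]; simp only [mkal, mksl]; ring
    rw [e1]
    simp only [mkar, mksl, mksr, hts', hss]
    ext i
    have e2 : ν i = t' i - ts i := by rw [hν]; simp; ring
    simp only [Pi.add_apply, Pi.smul_apply, smul_eq_mul, e2]
    ring
  -- the plane
  set u2 : V4 := (1 / s) • t + (c / s) • n0 with hu2
  set W : ℝ → ℝ → V4 := fun a d => a • n0 + d • u2 with hW
  have hu22 : mk u2 u2 = -1 := by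
    rw [hu2]; simp only [mkal, mkar, mksl, mksr, hu0, hut, ha, ha2]
    rw [hcd]
    linear_combination (1 / s) ^ 2 * hcs - ((1 / s) * s + 1) * hi1
  have hn0u : mk n0 u2 = 0 := by
    rw [hu2]; simp only [mkar, mksr, hu0, ha]; ring
  have hun0 : mk u2 n0 = 0 := by rw [mkc]; exact hn0u
  have hνu : mk ν u2 = 0 := by
    rw [hu2]; simp only [mkar, mksr, hνn, hνt]; ring
  have htu : mk t u2 = -s := by
    rw [hu2]; simp only [mkar, mksr, hut, ha2]
    rw [hcd]
    linear_combination (1 / s) * hcs - s * hi1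
  have htdec : t = (-c) • n0 + s • u2 := by
    rw [hu2]
    ext i
    simp only [Pi.add_apply, Pi.smul_apply, smul_eq_mul]
    field_simp
    ring
  have hWW : ∀ a d, mk (W a d) (W a d) = -(a ^ 2 + d ^ 2) := by
    intro a d
    simp only [hW, mkal, mkar, mksl, mksr, hu0, hu22, hn0u, hun0]; ring
  have hνW : ∀ a d, mk ν (W a d) = 0 := by
    intro a d
    simp only [hW, mkar, mksr, hνn, hνu]; ring
  set α : ℝ := Real.pi / p with hα
  have hco2 : Real.cos (2 * α) = 2 * c ^ 2 - 1 := Real.cos_two_mul α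
  have hsi2 : Real.sin (2 * α) = 2 * s * c := Real.sin_two_mul α
  set ρ : Module.End ℝ V4 := refl n0 * refl t with hρ
  have hρW : ∀ a d, ρ (W a d) = W (a * Real.cos (2 * α) - d * Real.sin (2 * α))
      (a * Real.sin (2 * α) + d * Real.cos (2 * α)) := by
    intro a d
    rw [hρ, Module.End.mul_apply, refl_ap n0, refl_ap t, hco2, hsi2]
    have e1 : mk t (W a d) = a * c - d * s := by
      simp only [hW, mkar, mksr, ha2, htu]; ring
    rw [e1]
    have e2 : mk n0 (W a d + (2 * (a * c - d * s)) • t) = -a + 2 * (a * c - d * s) * c := by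
      simp only [hW, mkar, mksr, hu0, hn0u, ha]; ring
    rw [e2]
    ext i
    have e3 : t i = -c * n0 i + s * u2 i := by
      have := congrFun htdec i
      simpa using this
    simp only [hW, Pi.add_apply, Pi.smul_apply, smul_eq_mul, e3]
    have e4 : s ^ 2 = 1 - c ^ 2 := by linarith
    linear_combination (-(2 * d * u2 i)) * e4
  have hρn : ∀ (n : ℕ) a d, (ρ ^ n) (W a d) = W (a * Real.cos (n * (2 * α)) - d * Real.sin (n * (2 * α)))
      (a * Real.sin (n * (2 * α)) + d * Real.cos (n * (2 * α))) := by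
    intro n
    induction n with
    | zero => intro a d; simp
    | succ n ih =>
      intro a d
      rw [pow_succ', Module.End.mul_apply, ih, hρW]
      have e1 : ((n + 1 : ℕ) : ℝ) * (2 * α) = n * (2 * α) + 2 * α := by push_cast; ring
      rw [e1, Real.cos_add, Real.sin_add]
      congr 1 <;> ring
  have hLg : ∀ n : ℕ, ∀ x y, mk ((ρ ^ n) x) ((ρ ^ n) y) = mk x y := by
    intro n
    induction n with
    | zero => intro x y; simp
    | succ n ih =>
      intro x y
      rw [pow_succ', Module.End.mul_apply, Module.End.mul_apply, hρ, Module.End.mul_apply,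
        Module.End.mul_apply, (hL n0 hu0).1.1, (hL t hut).1.1, ← hρ, ih]
  set ρ' : Module.End ℝ V4 := refl t * refl n0 with hρ'
  have hρρ : ρ * ρ' = 1 := by
    rw [hρ, hρ', mul_assoc, ← mul_assoc (refl t), (hL t hut).2, one_mul, (hL n0 hu0).2]
  have hρρ' : ρ' * ρ = 1 := by
    rw [hρ, hρ', mul_assoc, ← mul_assoc (refl n0), (hL n0 hu0).2, one_mul, (hL t hut).2]
  have hρρn : ∀ n : ℕ, ρ ^ n * ρ' ^ n = 1 := by
    intro n
    have hcom : Commute ρ ρ' := by rw [Commute, SemiconjBy, hρρ, hρρ']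
    rw [← hcom.mul_pow, hρρ, one_pow]
  have hρν : ρ ν = ν := by
    rw [hρ, Module.End.mul_apply, refl_ap t, htν, mul_zero, zero_smul, add_zero, refl_ap n0, hn0ν,
      mul_zero, zero_smul, add_zero]
  have hρnν : ∀ n : ℕ, (ρ ^ n) ν = ν := by
    intro n
    induction n with
    | zero => simp
    | succ n ih => rw [pow_succ', Module.End.mul_apply, ih, hρν]
  obtain ⟨m, hm⟩ := hodd
  have hmα : (m : ℝ) * (2 * α) = Real.pi - α := by
    have hp0 : (p : ℝ) ≠ 0 := by positivity
    have h1 : (p : ℝ) = 2 * m + 1 := by rw [hm]; push_cast; ring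
    have h2 : (p : ℝ) * α = Real.pi := by rw [hα]; field_simp
    have h3 : (2 * (m : ℝ) + 1) * α = Real.pi := by rw [← h1]; exact h2
    linarith
  -- one step
  have hstep : ∀ a d, E ν (W a d) ∈ G → E ν (W ((1 - c) * a - s * d) (s * a + (1 - c) * d)) ∈ G := by
    intro a d hE
    have e1 : (ρ ^ m) (W a d) = W (-c * a - s * d) (s * a - c * d) := by
      rw [hρn, hmα, Real.cos_pi_sub, Real.sin_pi_sub]
      congr 1 <;> ring
    have e2 : E ν ((ρ ^ m) (W a d)) ∈ G := by
      rw [← E_conj (ρ ^ m) (ρ' ^ m) (hLg m) (hρρn m) ν (W a d) (hρnν m)]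
      exact G.mul_mem (G.mul_mem (G.pow_mem (G.mul_mem g0 g1) m) hE)
        (G.pow_mem (G.mul_mem g1 g0) m)
    rw [e1] at e2
    have e3 := G.mul_mem hE e2
    rw [E_mul ν _ _ hνν (hνW _ _) (hνW _ _)] at e3
    have e4 : W a d + W (-c * a - s * d) (s * a - c * d) =
        W ((1 - c) * a - s * d) (s * a + (1 - c) * d) := by
      ext i
      simp only [hW, Pi.add_apply, Pi.smul_apply, smul_eq_mul]
      ring
    rwa [e4] at e3
  -- the sequence
  have hseq : ∀ n : ℕ, ∃ a d : ℝ, E ν (W a d) ∈ G ∧ a ^ 2 + d ^ 2 = 4 * (2 - 2 * c) ^ n := by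
    intro n
    induction n with
    | zero =>
      refine ⟨-(2 * c), -(2 * s), ?_, by rw [pow_zero]; linear_combination 4 * hcs⟩
      have e1 : W (-(2 * c)) (-(2 * s)) = (2 : ℝ) • ts := by
        ext i
        have e3 : t i = -c * n0 i + s * u2 i := by
          have := congrFun htdec i
          simpa using this
        simp only [hW, hts, Pi.add_apply, Pi.smul_apply, smul_eq_mul, e3]
        ring
      rw [e1, ← gE]
      exact G.mul_mem g2 gsG
    | succ n ih =>
      obtain ⟨a, d, h1, h2⟩ := ih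
      refine ⟨_, _, hstep a d h1, ?_⟩
      have e1 : ((1 - c) * a - s * d) ^ 2 + (s * a + (1 - c) * d) ^ 2 =
          ((1 - c) ^ 2 + s ^ 2) * (a ^ 2 + d ^ 2) := by ring
      have e2 : (1 - c) ^ 2 + s ^ 2 = 2 - 2 * c := by linear_combination hcs
      rw [e1, e2, h2]
      ring
  choose A D hAD hN using hseq
  have hval : ∀ n : ℕ, mk o.1 (E ν (W (A n) (D n)) o.1) = 1 + 4 * (2 - 2 * c) ^ n * b ^ 2 / 2 := by
    intro n
    rw [E_self _ _ _ o.2.1, hWW, hN, ← hb]
    ring
  have hq0 : 0 < 2 - 2 * c := by linarith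
  have hq1 : 2 - 2 * c < 1 := by linarith
  have hb2 : 0 < b ^ 2 := by positivity
  have hinf := Set.infinite_of_injective_forall_mem
    (s := {g | g ∈ G ∧ mk o.1 (g o.1) ≤ 1 + 2 * b ^ 2}) (f := fun n : ℕ => E ν (W (A n) (D n))) ?_ ?_
  · exact hinf (hT.pro o _)
  · intro n k hnk
    simp only at hnk
    have e1 := hval n
    have e2 := hval k
    rw [hnk, e2] at e1
    have e3 : (2 - 2 * c) ^ k = (2 - 2 * c) ^ n := by
      have e4 : 4 * (2 - 2 * c) ^ k * b ^ 2 / 2 = 4 * (2 - 2 * c) ^ n * b ^ 2 / 2 := by linarith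
      have e5 : (2 * b ^ 2) * (2 - 2 * c) ^ k = (2 * b ^ 2) * (2 - 2 * c) ^ n := by linarith
      exact mul_left_cancel₀ (by positivity) e5
    exact ((pow_right_injective₀ hq0 hq1.ne) e3).symm
  · intro n
    refine ⟨hAD n, ?_⟩
    show mk o.1 (E ν (W (A n) (D n)) o.1) ≤ _
    rw [hval n]
    have : (2 - 2 * c) ^ n ≤ 1 := pow_le_one₀ hq0.le hq1.le
    nlinarith

end Pool.Agent.H67.TOH
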