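import Pool.Agent.H39.TO.Targets

/-!
MP_397744_co: modules NRB and NRA (board toh_modules).
-/

namespace Pool.Agent.H67.TOH

open Pool.Agent.H57.CP Pool.Agent.H39.TO

/-- the value for an entry of the Coxeter matrix -/
noncomputable def cc (n : ℕ) : ℝ := if n = 0 then 1 else Real.cos (Real.pi / (n : ℕ))

theorem mk_comm (x y : V4) : mk x y = mk y x := by
  unfold mk; ring

theorem mkNrm (M : CoxeterMatrix (Fin 3)) (i j k : Fin 3) (hij : i ≠ j) (hik : i ≠ k) (hjk : j ≠ k)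
    (A B C : V4) (hA : mk A A = -1) (hB : mk B B = -1) (hC : mk C C = -1)
    (hAB : mk A B = cc (M i j)) (hAC : mk A C = cc (M i k)) (hBC : mk B C = cc (M j k))
    (hli : ∀ a b c : ℝ, a • A + b • B + c • C = 0 → a = 0 ∧ b = 0 ∧ c = 0) :
    ∃ al, Nrm M al ∧ al i = A ∧ al j = B ∧ al k = C := by
  let al : Fin 3 → V4 := fun l => if l = i then A else if l = j then B else C
  have ei : al i = A := by simp [al]
  have ej : al j = B := by simp [al, hij.symm]
  have ek : al k = C := by simp [al, hik.symm, hjk.symm]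
  have hall : ∀ l : Fin 3, l = i ∨ l = j ∨ l = k := by
    intro l
    revert hij hik hjk
    clear hAB hAC hBC ei ej ek
    clear al
    revert i j k l
    decide
  have hval : ∀ l l', l ≠ l' → mk (al l) (al l') = cc (M l l') := by
    intro l l' hne
    have hsymm : ∀ a b, M a b = M b a := fun a b => M.symmetric a b
    rcases hall l with rfl | rfl | rfl <;> rcases hall l' with rfl | rfl | rfl
    · exact absurd rfl hne
    · rw [ei, ej, hAB]
    · rw [ei, ek, hAC]
    · rw [ei, ej, mk_comm, hAB, hsymm]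
    · exact absurd rfl hne
    · rw [ej, ek, hBC]
    · rw [ei, ek, mk_comm, hAC, hsymm]
    · rw [ej, ek, mk_comm, hBC, hsymm]
    · exact absurd rfl hne
  refine ⟨al, ⟨?_, ?_, ?_, ?_⟩, ei, ej, ek⟩
  · intro l
    rcases hall l with rfl | rfl | rfl
    · rw [ei, hA]
    · rw [ej, hB]
    · rw [ek, hC]
  · intro l l' hne h0
    rw [hval l l' hne, cc, if_neg h0]
  · intro l l' hne h0
    rw [hval l l' hne, cc, if_pos h0]
  · rw [Fintype.linearIndependent_iff]
    intro g hg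
    have huniv : (Finset.univ : Finset (Fin 3)) = {i, j, k} := by
      ext l
      simpa using hall l
    rw [huniv, Finset.sum_insert (by simp [hij, hik]), Finset.sum_insert (by simp [hjk]),
      Finset.sum_singleton, ei, ej, ek, ← add_assoc] at hg
    obtain ⟨h1, h2, h3⟩ := hli _ _ _ hg
    intro l
    rcases hall l with rfl | rfl | rfl
    · exact h1
    · exact h2
    · exact h3

theorem cc_nonneg (n : ℕ) (h : n ≠ 1) : 0 ≤ cc n := by
  unfold cc
  split_ifs with h0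
  · norm_num
  · have h2 : (2 : ℝ) ≤ n := by
      have : 2 ≤ n := by omega
      exact_mod_cast this
    refine Real.cos_nonneg_of_neg_pi_div_two_le_of_le ?_ ?_
    · have : 0 ≤ Real.pi / n := by positivity
      linarith [Real.pi_pos]
    · exact div_le_div_of_nonneg_left Real.pi_pos.le (by norm_num) h2

theorem sin_pos (n : ℕ) (h : n ≠ 1) (h0 : n ≠ 0) : 0 < Real.sin (Real.pi / n) := by
  have h2 : (2 : ℝ) ≤ n := by
    have : 2 ≤ n := by omega
    exact_mod_cast this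
  refine Real.sin_pos_of_pos_of_lt_pi (by positivity) ?_
  have := div_le_div_of_nonneg_left Real.pi_pos.le (by norm_num) h2
  linarith [Real.pi_pos]

/-- the third normal -/
theorem third (n : ℕ) (h : n ≠ 1) (h0 : n ≠ 0) (c1 c2 : ℝ) : ∃ y z t : ℝ, t < 0 ∧ 0 < z ∧
    y = -(c1 * Real.cos (Real.pi / n) + c2) / Real.sin (Real.pi / n) ∧
    z ^ 2 - t ^ 2 = 1 - c1 ^ 2 - y ^ 2 ∧
    mk ![-Real.cos (Real.pi / n), Real.sin (Real.pi / n), 0, 0] ![-c1, y, z, t] = c2 := by
  have hs := sin_pos n h h0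
  set y : ℝ := -(c1 * Real.cos (Real.pi / n) + c2) / Real.sin (Real.pi / n) with hy
  set dl : ℝ := 1 - c1 ^ 2 - y ^ 2 with hdl
  set L : ℝ := 1 + |dl| with hL
  have hL1 : 1 ≤ L := by rw [hL]; linarith [abs_nonneg dl]
  have hdL : |dl| < L := by rw [hL]; linarith
  have hL0 : 0 < L := by linarith
  have h1 : |dl / L| < 1 := by
    rw [abs_div, abs_of_pos hL0, div_lt_one hL0]; exact hdL
  obtain ⟨h2, h3⟩ := abs_lt.1 h1
  refine ⟨y, (L + dl / L) / 2, (dl / L - L) / 2, by linarith, by linarith, rfl, ?_, ?_⟩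
  · have : ((L + dl / L) / 2) ^ 2 - ((dl / L - L) / 2) ^ 2 = L * (dl / L) := by ring
    rw [this, mul_div_cancel₀ _ hL0.ne']
  · have h4 : Real.sin (Real.pi / n) * y = -(c1 * Real.cos (Real.pi / n) + c2) := by
      rw [hy]; field_simp
    simp only [mk, Matrix.cons_val]
    linarith

theorem LI3 (c s c1 y z t : ℝ) (hs : 0 < s) (hz : 0 < z) (a b d : ℝ)
    (h : a • (![1, 0, 0, 0] : V4) + b • (![-c, s, 0, 0] : V4) + d • (![-c1, y, z, t] : V4) = 0) :
    a = 0 ∧ b = 0 ∧ d = 0 := by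
  have h0 := congrFun h 0
  have h1 := congrFun h 1
  have h2 := congrFun h 2
  simp at h0 h1 h2
  have hd : d = 0 := by
    rcases h2 with h2 | h2
    · exact h2
    · exact absurd h2 hz.ne'
  rw [hd] at h0 h1
  have hb : b = 0 := by
    simp at h1
    rcases h1 with h1 | h1
    · exact h1
    · exact absurd h1 hs.ne'
  rw [hb] at h0
  simp at h0
  exact ⟨h0, hb, hd⟩

theorem pf_NRB : T_NRB := by
  intro M i j k hij hik hjk hM
  have hM1 : M i j ≠ 1 := M.off_diagonal i j hij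
  have hs := sin_pos (M i j) hM1 hM
  obtain ⟨y, z, t, ht, hz, hy, hzt, hc⟩ := third (M i j) hM1 hM (cc (M i k)) (cc (M j k))
  obtain ⟨al, hN, ei, ej, ek⟩ := mkNrm M i j k hij hik hjk ![1, 0, 0, 0]
    ![-Real.cos (Real.pi / (M i j : ℕ)), Real.sin (Real.pi / (M i j : ℕ)), 0, 0]
    ![-cc (M i k), y, z, t] (by simp [mk])
    (by simp only [mk, Matrix.cons_val]; nlinarith [Real.sin_sq_add_cos_sq (Real.pi / (M i j : ℕ))])
    (by simp only [mk, Matrix.cons_val]; nlinarith)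
    (by simp only [mk, Matrix.cons_val]; rw [cc, if_neg hM]; ring)
    (by simp only [mk, Matrix.cons_val]; ring) hc
    (fun a b d h => LI3 _ _ _ _ _ _ hs hz a b d h)
  refine ⟨al, hN, ?_, ?_, ?_⟩
  · rw [ei]; simp [mk, o]
  · rw [ej]; simp [mk, o]
  · rw [ek]
    simp only [mk, o, Matrix.cons_val]
    linarith

theorem base2 (y z t s : ℝ) (hs : 0 < s) (hy : y ≤ 0) (h : z ^ 2 - t ^ 2 = s ^ 2 - y ^ 2)
    (hL : 0 < z - t) (r : ℝ) (hr : 0 < r) : ∃ v' : H3, v'.1 0 = 0 ∧
    v'.1 1 = -y * (Real.sqrt (1 + r ^ 2) / s) + r ∧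
    v'.1 3 * t - v'.1 1 * y - v'.1 2 * z = 0 := by
  set u : ℝ := Real.sqrt (1 + r ^ 2) / s with hu
  have hq : 0 < Real.sqrt (1 + r ^ 2) := Real.sqrt_pos.2 (by positivity)
  have hu0 : 0 < u := div_pos hq hs
  have hus : s ^ 2 * u ^ 2 = 1 + r ^ 2 := by
    have : s * u = Real.sqrt (1 + r ^ 2) := by rw [hu]; field_simp
    rw [← mul_pow, this, Real.sq_sqrt (by positivity)]
  set y1 : ℝ := -y * u + r with hy1
  have hP : 0 < (z - t) * u := mul_pos hL hu0
  have hy0 : 0 ≤ -y * u := mul_nonneg (by linarith) hu0.le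
  set P : ℝ := (z - t) * u with hPd
  have hQ : 0 < (1 + y1 ^ 2) / P := by positivity
  have hPQ : P * ((1 + y1 ^ 2) / P) = 1 + y1 ^ 2 := mul_div_cancel₀ _ hP.ne'
  set Q : ℝ := (1 + y1 ^ 2) / P with hQd
  refine ⟨⟨![0, y1, (Q - P) / 2, (P + Q) / 2], ?_, ?_⟩, ?_, ?_, ?_⟩
  · simp only [mk, Matrix.cons_val]
    nlinarith
  · simp only [Matrix.cons_val]
    linarith
  · simp
  · simp
  · simp only [Matrix.cons_val]
    have h1 : P * (P * (z + t) - Q * (z - t) - 2 * y1 * y) = 0 := by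
      have h2 : P * (P * (z + t) - Q * (z - t) - 2 * y1 * y) =
        P * P * (z + t) - (P * Q) * (z - t) - 2 * y1 * y * P := by ring
      rw [h2, hPQ, hPd]
      have h3 : (z - t) * u * ((z - t) * u) * (z + t) - (1 + y1 ^ 2) * (z - t) -
        2 * y1 * y * ((z - t) * u) =
        (z - t) * (u ^ 2 * (z ^ 2 - t ^ 2) - 1 - y1 ^ 2 - 2 * y1 * y * u) := by ring
      rw [h3, h, hy1]
      have h4 : u ^ 2 * (s ^ 2 - y ^ 2) - 1 - (-y * u + r) ^ 2 - 2 * (-y * u + r) * y * u =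
        s ^ 2 * u ^ 2 - 1 - r ^ 2 := by ring
      rw [h4, hus]; ring
    have h5 := (mul_eq_zero.1 h1).resolve_left hP.ne'
    linarith

theorem pf_NRA : T_NRA := by
  intro M i j k hij hik hjk hMik hMjk
  have hsy : ∀ a b, M a b = M b a := fun a b => M.symmetric a b
  have hki : M k i ≠ 0 := by rw [hsy]; exact hMik
  have hkj : M k j ≠ 0 := by rw [hsy]; exact hMjk
  have hM1 : M k i ≠ 1 := M.off_diagonal k i hik.symm
  have hM2 : M k j ≠ 1 := M.off_diagonal k j hjk.symm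
  have hs := sin_pos (M k i) hM1 hki
  have hs2 := sin_pos (M k j) hM2 hkj
  have hc1 := cc_nonneg (M k i) hM1
  have hc2 := cc_nonneg (M k j) hM2
  have hc3 := cc_nonneg (M i j) (M.off_diagonal i j hij)
  obtain ⟨y, z, t, ht, hz, hy, hzt, hc⟩ := third (M k i) hM1 hki (cc (M k j)) (cc (M i j))
  obtain ⟨al, hN, ek, ei, ej⟩ := mkNrm M k i j hik.symm hjk.symm hij ![1, 0, 0, 0]
    ![-Real.cos (Real.pi / (M k i : ℕ)), Real.sin (Real.pi / (M k i : ℕ)), 0, 0]
    ![-cc (M k j), y, z, t] (by simp [mk])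
    (by simp only [mk, Matrix.cons_val]; nlinarith [Real.sin_sq_add_cos_sq (Real.pi / (M k i : ℕ))])
    (by simp only [mk, Matrix.cons_val]; nlinarith)
    (by simp only [mk, Matrix.cons_val]; rw [cc, if_neg hki]; ring)
    (by simp only [mk, Matrix.cons_val]; ring) hc
    (fun a b d h => LI3 _ _ _ _ _ _ hs hz a b d h)
  have hy0 : y ≤ 0 := by
    rw [hy]
    apply div_nonpos_of_nonpos_of_nonneg _ hs.le
    have : cc (M k i) = Real.cos (Real.pi / (M k i : ℕ)) := by rw [cc, if_neg hki]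
    rw [← this]
    nlinarith [mul_nonneg hc2 hc1]
  have hzt2 : z ^ 2 - t ^ 2 = Real.sin (Real.pi / (M k j : ℕ)) ^ 2 - y ^ 2 := by
    rw [hzt, Real.sin_sq]
    have : cc (M k j) = Real.cos (Real.pi / (M k j : ℕ)) := by rw [cc, if_neg hkj]
    rw [← this]
  have hget : ∀ r : ℝ, 0 < r → ∃ v' : H3, mk v'.1 (al j) = 0 ∧ mk v'.1 (al k) = 0 ∧
      mk v'.1 (al i) = -(Real.sin (Real.pi / (M k i : ℕ)) *
        (-y * (Real.sqrt (1 + r ^ 2) / Real.sin (Real.pi / (M k j : ℕ))) + r)) := by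
    intro r hr
    obtain ⟨v', h0, h1, h2⟩ := base2 y z t _ hs2 hy0 hzt2 (by linarith) r hr
    refine ⟨v', ?_, ?_, ?_⟩
    · rw [ej]
      simp only [mk, Matrix.cons_val]
      rw [h0]
      linarith
    · rw [ek]
      simp only [mk, Matrix.cons_val]
      rw [h0]
      ring
    · rw [ei, ← h1]
      simp only [mk, Matrix.cons_val]
      rw [h0]
      ring
  have hpos : ∀ r : ℝ, 0 < r →
      0 < -y * (Real.sqrt (1 + r ^ 2) / Real.sin (Real.pi / (M k j : ℕ))) + r := by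
    intro r hr
    have : 0 ≤ -y * (Real.sqrt (1 + r ^ 2) / Real.sin (Real.pi / (M k j : ℕ))) :=
      mul_nonneg (by linarith) (by positivity)
    linarith
  refine ⟨al, hN, ?_, ?_, ?_, ?_⟩
  · rw [ei]; simp [mk, o]
  · rw [ek]; simp [mk, o]
  · rw [ej]
    simp only [mk, o, Matrix.cons_val]
    linarith
  · obtain ⟨v1, a1, a2, a3⟩ := hget 1 one_pos
    obtain ⟨v2, b1, b2, b3⟩ := hget 2 two_pos
    have n1 : mk v1.1 (al i) < 0 := by
      rw [a3]
      have := mul_pos hs (hpos 1 one_pos)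
      linarith
    have n2 : mk v2.1 (al i) < 0 := by
      rw [b3]
      have := mul_pos hs (hpos 2 two_pos)
      linarith
    have hlt : mk v2.1 (al i) < mk v1.1 (al i) := by
      rw [a3, b3, neg_lt_neg_iff]
      refine mul_lt_mul_of_pos_left ?_ hs
      have h5 : Real.sqrt (1 + (1 : ℝ) ^ 2) / Real.sin (Real.pi / (M k j : ℕ)) ≤
          Real.sqrt (1 + (2 : ℝ) ^ 2) / Real.sin (Real.pi / (M k j : ℕ)) :=
        div_le_div_of_nonneg_right (Real.sqrt_le_sqrt (by norm_num)) hs2.le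
      have h6 := mul_le_mul_of_nonneg_left h5 (by linarith : 0 ≤ -y)
      linarith
    by_cases e : mk v1.1 (al i) = mk o.1 (al j)
    · exact ⟨v2, b1, b2, n2, by rw [← e]; exact hlt.ne⟩
    · exact ⟨v1, a1, a2, n1, e⟩

end Pool.Agent.H67.TOH
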